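import Pool.Agent.Q75.BM.Stm

/-!
Job BM-AV1 (project BM of helper75): the mean of `log ‖⟨e_α, z⟩‖` over the angle.
-/

set_option autoImplicit false

namespace Pool.Agent.Q90.BM.AV1

open Filter Topology MeasureTheory Set
open Pool.Agent.Q75.BM

theorem form_norm (z : Fin 2 → ℂ) (α : ℝ) :
    ‖∑ i, (ev α i : ℂ) * z i‖ =
      ‖((z 0 - Complex.I * z 1) / 2) * circleMap 0 1 α ^ 2 + (z 0 + Complex.I * z 1) / 2‖ := by
  have hw : circleMap 0 1 α = (Real.cos α : ℂ) + (Real.sin α : ℂ) * Complex.I := by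
    simp [circleMap, Complex.exp_mul_I]
  have hn : ‖circleMap 0 1 α‖ = 1 := by simp
  have hcs : ((Real.cos α : ℂ)) ^ 2 + ((Real.sin α : ℂ)) ^ 2 = 1 := by
    have := Real.cos_sq_add_sin_sq α
    exact_mod_cast this
  have e1 : ((z 0 - Complex.I * z 1) / 2) * circleMap 0 1 α ^ 2 + (z 0 + Complex.I * z 1) / 2 =
      circleMap 0 1 α * ∑ i, (ev α i : ℂ) * z i := by
    rw [Fin.sum_univ_two]
    simp only [ev, Matrix.cons_val_zero, Matrix.cons_val_one]
    rw [hw]
    generalize (Real.cos α : ℂ) = c at hcs ⊢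
    generalize (Real.sin α : ℂ) = s at hcs ⊢
    linear_combination (-(z 0 + Complex.I * z 1) / 2) * hcs -
      (-s ^ 2 * z 0 / 2 + c * s * z 1 + Complex.I * s ^ 2 * z 1 / 2) * Complex.I_sq
  rw [e1, norm_mul, hn, one_mul]

theorem par (z : Fin 2 → ℂ) :
    ‖(z 0 - Complex.I * z 1) / 2‖ ^ 2 + ‖(z 0 + Complex.I * z 1) / 2‖ ^ 2 =
      (∑ i, ‖z i‖ ^ 2) / 2 := by
  have h := parallelogram_law_with_norm ℝ (z 0) (Complex.I * z 1)
  rw [norm_mul, Complex.norm_I, one_mul] at h
  rw [Fin.sum_univ_two, norm_div, norm_div]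
  simp only [Complex.norm_ofNat]
  nlinarith [h]

/-- the two cases of the mean -/
theorem core (A B : ℂ) (hAB : A ≠ 0 ∨ B ≠ 0) (N : ℝ) (hN : 0 < N)
    (hs : ‖A‖ ^ 2 + ‖B‖ ^ 2 = N ^ 2 / 2) :
    IntervalIntegrable (fun α : ℝ => Real.log ‖A * circleMap 0 1 α ^ 2 + B‖) volume
      0 (2 * Real.pi) ∧
    2 * Real.pi * (Real.log N - 1) ≤
      ∫ α in (0 : ℝ)..(2 * Real.pi), Real.log ‖A * circleMap 0 1 α ^ 2 + B‖ ∧
    ∀ᵐ α : ℝ, A * circleMap 0 1 α ^ 2 + B ≠ 0 := by
  have hlog2 : Real.log 2 ≤ 1 := by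
    have := Real.log_two_lt_d9
    linarith
  have hpi := Real.pi_pos
  rcases eq_or_ne A 0 with rfl | hA
  · have hB : B ≠ 0 := by
      rcases hAB with h | h
      · exact absurd rfl h
      · exact h
    have hBp : 0 < ‖B‖ := norm_pos_iff.2 hB
    simp only [zero_mul, zero_add]
    refine ⟨intervalIntegrable_const, ?_, ae_of_all _ fun _ => hB⟩
    rw [intervalIntegral.integral_const, smul_eq_mul, sub_zero]
    refine mul_le_mul_of_nonneg_left ?_ (by positivity)
    have h1 : N ≤ 2 * ‖B‖ := by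
      rw [norm_zero] at hs
      nlinarith [hBp, hN]
    have h2 := Real.log_le_log hN h1
    rw [Real.log_mul (by norm_num) hBp.ne'] at h2
    linarith
  · have hAp : 0 < ‖A‖ := norm_pos_iff.2 hA
    obtain ⟨c, hc⟩ := IsAlgClosed.exists_pow_nat_eq (-B / A) (n := 2) (by norm_num)
    have hfac : ∀ w : ℂ, A * w ^ 2 + B = A * ((w - c) * (w + c)) := by
      intro w
      have : A * c ^ 2 = -B := by
        rw [hc]
        field_simp
      linear_combination this
    have hcount : (circleMap 0 1 ⁻¹' {c, -c}).Countable :=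
      Set.Countable.preimage_circleMap (by simp) 0 (by norm_num)
    have hae0 : ∀ᵐ α : ℝ, circleMap 0 1 α ≠ c ∧ circleMap 0 1 α ≠ -c := by
      have h0 : volume (circleMap 0 1 ⁻¹' {c, -c}) = 0 := hcount.measure_zero _
      have h1 : ∀ᵐ α : ℝ, α ∉ (circleMap 0 1 ⁻¹' {c, -c}) := by
        rw [ae_iff]
        simp only [not_not]
        exact h0
      filter_upwards [h1] with α hα
      constructor
      · intro h; exact hα (Or.inl h)
      · intro h; exact hα (Or.inr h)
    have hae : ∀ᵐ α : ℝ, Real.log ‖A * circleMap 0 1 α ^ 2 + B‖ =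
        Real.log ‖A‖ + (Real.log ‖circleMap 0 1 α - c‖ + Real.log ‖circleMap 0 1 α + c‖) := by
      filter_upwards [hae0] with α hα
      have h1 : ‖circleMap 0 1 α - c‖ ≠ 0 := norm_ne_zero_iff.2 (sub_ne_zero.2 hα.1)
      have h2 : ‖circleMap 0 1 α + c‖ ≠ 0 := by
        refine norm_ne_zero_iff.2 fun h => hα.2 ?_
        linear_combination h
      rw [hfac, norm_mul, norm_mul, Real.log_mul hAp.ne' (mul_ne_zero h1 h2),
        Real.log_mul h1 h2]
    have i1 : IntervalIntegrable (fun α : ℝ => Real.log ‖circleMap 0 1 α - c‖) volume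
        0 (2 * Real.pi) := circleIntegrable_log_norm_sub_const (a := c) (c := 0) 1
    have i2 : IntervalIntegrable (fun α : ℝ => Real.log ‖circleMap 0 1 α + c‖) volume
        0 (2 * Real.pi) := by
      have h := circleIntegrable_log_norm_sub_const (a := -c) (c := 0) 1
      have h' : IntervalIntegrable (fun α : ℝ => Real.log ‖circleMap 0 1 α - -c‖) volume
        0 (2 * Real.pi) := h
      simpa only [sub_neg_eq_add] using h'
    have v1 : ∫ α in (0 : ℝ)..(2 * Real.pi), Real.log ‖circleMap 0 1 α - c‖ =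
        2 * Real.pi * Real.posLog ‖c‖ := by
      have h := circleAverage_log_norm_sub_const_eq_posLog (a := c)
      rw [Real.circleAverage_def, smul_eq_mul] at h
      field_simp at h
      linarith
    have v2 : ∫ α in (0 : ℝ)..(2 * Real.pi), Real.log ‖circleMap 0 1 α + c‖ =
        2 * Real.pi * Real.posLog ‖c‖ := by
      have h := circleAverage_log_norm_add_const_eq_posLog (a := c)
      rw [Real.circleAverage_def, smul_eq_mul] at h
      field_simp at h
      linarith
    refine ⟨?_, ?_, ?_⟩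
    · refine IntervalIntegrable.congr_ae
        (((intervalIntegrable_const (c := Real.log ‖A‖)).add (i1.add i2))) ?_
      refine ae_restrict_of_ae ?_
      filter_upwards [hae] with α hα
      exact hα.symm
    · have e1 : ∫ α in (0 : ℝ)..(2 * Real.pi), Real.log ‖A * circleMap 0 1 α ^ 2 + B‖ =
          ∫ α in (0 : ℝ)..(2 * Real.pi), (Real.log ‖A‖ +
            (Real.log ‖circleMap 0 1 α - c‖ + Real.log ‖circleMap 0 1 α + c‖)) := by
        refine intervalIntegral.integral_congr_ae ?_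
        filter_upwards [hae] with α hα _
        exact hα
      rw [e1, intervalIntegral.integral_add intervalIntegrable_const (i1.add i2),
        intervalIntegral.integral_add i1 i2, v1, v2, intervalIntegral.integral_const,
        smul_eq_mul, sub_zero]
      have hgoal : Real.log N - 1 ≤ Real.log ‖A‖ + 2 * Real.posLog ‖c‖ := by
        have hcn : ‖c‖ ^ 2 = ‖B‖ / ‖A‖ := by
          rw [← norm_pow, hc, norm_div, norm_neg]
        rcases le_total ‖B‖ ‖A‖ with h | h
        · have h1 : N ≤ 2 * ‖A‖ := by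
            nlinarith [norm_nonneg B]
          have h2 := Real.log_le_log hN h1
          rw [Real.log_mul (by norm_num) hAp.ne'] at h2
          have h3 : 0 ≤ Real.posLog ‖c‖ := Real.posLog_nonneg
          linarith
        · have hBp : 0 < ‖B‖ := lt_of_lt_of_le hAp h
          have h1 : N ≤ 2 * ‖B‖ := by
            nlinarith [norm_nonneg A]
          have h2 := Real.log_le_log hN h1
          rw [Real.log_mul (by norm_num) hBp.ne'] at h2
          have h3 : Real.log ‖c‖ ≤ Real.posLog ‖c‖ := by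
            rw [Real.posLog_def]
            exact le_max_right _ _
          have h4 : 2 * Real.log ‖c‖ = Real.log ‖B‖ - Real.log ‖A‖ := by
            rw [← Real.log_div hBp.ne' hAp.ne', ← hcn, Real.log_pow]
            norm_num
          linarith
      nlinarith [hgoal, hpi]
    · filter_upwards [hae0] with α hα h
      rw [hfac] at h
      rcases mul_eq_zero.1 h with h | h
      · exact hA h
      · rcases mul_eq_zero.1 h with h | h
        · exact hα.1 (by linear_combination h)
        · exact hα.2 (by linear_combination h)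

end Pool.Agent.Q90.BM.AV1

namespace Pool.Agent.Q90.BM

open Pool.Agent.Q75.BM MeasureTheory

theorem t_AV1 : Pool.Agent.Q75.BM.S_AV1 := by
  intro z hz
  have hsum : 0 < ∑ i, ‖z i‖ ^ 2 := by
    rcases Function.ne_iff.1 hz with ⟨i, hi⟩
    refine Finset.sum_pos' (fun j _ => by positivity) ⟨i, Finset.mem_univ _, ?_⟩
    have : 0 < ‖z i‖ := norm_pos_iff.2 hi
    positivity
  set N : ℝ := Real.sqrt (∑ i, ‖z i‖ ^ 2) with hNdef
  have hN : 0 < N := Real.sqrt_pos.2 hsum
  have hN2 : N ^ 2 = ∑ i, ‖z i‖ ^ 2 := Real.sq_sqrt hsum.le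
  have hpar := AV1.par z
  rw [← hN2] at hpar
  have hAB : (z 0 - Complex.I * z 1) / 2 ≠ 0 ∨ (z 0 + Complex.I * z 1) / 2 ≠ 0 := by
    by_contra hcon
    push Not at hcon
    rw [hcon.1, hcon.2] at hpar
    simp only [norm_zero] at hpar
    nlinarith
  obtain ⟨c1, c2, c3⟩ := AV1.core _ _ hAB N hN hpar
  refine ⟨?_, ?_, ?_, ?_⟩
  · simp only [AV1.form_norm]
    exact c1
  · simp only [AV1.form_norm]
    exact c2
  · intro α hα
    refine Real.log_le_log (norm_pos_iff.2 hα) ?_
    refine Real.le_sqrt_of_sq_le ?_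
    rw [Fin.sum_univ_two, Fin.sum_univ_two]
    simp only [ev, Matrix.cons_val_zero, Matrix.cons_val_one]
    have h1 : ‖(Real.cos α : ℂ) * z 0 + (Real.sin α : ℂ) * z 1‖ ≤
        |Real.cos α| * ‖z 0‖ + |Real.sin α| * ‖z 1‖ := by
      refine (norm_add_le _ _).trans (le_of_eq ?_)
      rw [norm_mul, norm_mul, Complex.norm_real, Complex.norm_real, Real.norm_eq_abs,
        Real.norm_eq_abs]
    have h2 : |Real.cos α| ^ 2 + |Real.sin α| ^ 2 = 1 := by
      rw [sq_abs, sq_abs]
      exact Real.cos_sq_add_sin_sq α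
    have h3 : (|Real.cos α| * ‖z 0‖ + |Real.sin α| * ‖z 1‖) ^ 2 ≤ ‖z 0‖ ^ 2 + ‖z 1‖ ^ 2 := by
      have h4 : 0 ≤ (|Real.cos α| * ‖z 1‖ - |Real.sin α| * ‖z 0‖) ^ 2 := sq_nonneg _
      have h5 : (|Real.cos α| * ‖z 0‖ + |Real.sin α| * ‖z 1‖) ^ 2 +
          (|Real.cos α| * ‖z 1‖ - |Real.sin α| * ‖z 0‖) ^ 2 =
          (|Real.cos α| ^ 2 + |Real.sin α| ^ 2) * (‖z 0‖ ^ 2 + ‖z 1‖ ^ 2) := by ring
      rw [h2, one_mul] at h5
      linarith
    exact (pow_le_pow_left₀ (norm_nonneg _) h1 2).trans h3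
  · filter_upwards [c3] with α hα h
    apply hα
    have h1 := AV1.form_norm z α
    rw [h, norm_zero] at h1
    exact norm_eq_zero.1 h1.symm

end Pool.Agent.Q90.BM
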