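import Pool.Agent.Q75.BM.Stm

/-!
Job BM-LP (project BM of helper75): the Laplacian of a test function.
-/

set_option autoImplicit false

namespace Pool.Agent.Q90.BM

open Filter Topology MeasureTheory Set
open scoped ContDiff
open Pool.Agent.Q75.BM Pool.Agent.Q72.WE

theorem two_of_test {φ : ℂ → ℝ} (h : Test φ) : ContDiff ℝ 2 φ := by
  exact_mod_cast contDiff_infty.1 h.smooth 2

theorem t_LP : Pool.Agent.Q75.BM.S_LP := by
  intro φ hφ
  have h2 : ContDiff ℝ 2 φ := two_of_test hφ
  refine ⟨LL.continuous_laplacian h2, LL.hasCompactSupport_laplacian h2 hφ.comp, ?_⟩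
  have h := LL.green (v := fun _ : ℂ => (1 : ℝ)) contDiff_const h2 hφ.comp
  simpa using h

end Pool.Agent.Q90.BM
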