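import Pool.Agent.Q75.BM.Stm

/-!
Job BM-RO (project BM of helper75): the distributional Laplacian of `log ‖P‖`.
-/

set_option autoImplicit false

namespace Pool.Agent.Q90.BM.RO

open Filter Topology MeasureTheory Set
open scoped ContDiff
open Pool.Agent.Q75.BM Pool.Agent.Q72.WE
open Polynomial

theorem key (hLP : Pool.Agent.Q75.BM.S_LP) (a : ℂ) (m : Multiset ℂ) :
    LocallyIntegrable (fun z : ℂ => Real.log ‖(C a * (m.map fun r => X - C r).prod).eval z‖) ∧
    ∀ φ : ℂ → ℝ, Test φ →
      ∫ z, Real.log ‖(C a * (m.map fun r => X - C r).prod).eval z‖ * Lap φ z =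
        if a = 0 then 0 else 2 * Real.pi * (m.map φ).sum := by
  rcases eq_or_ne a 0 with rfl | ha
  · simp only [map_zero, zero_mul, eval_zero, norm_zero, Real.log_zero, if_true]
    refine ⟨locallyIntegrable_const 0, fun φ hφ => by simp⟩
  simp only [if_neg ha]
  induction m using Multiset.induction_on with
  | empty =>
    simp only [Multiset.map_zero, Multiset.prod_zero, mul_one, eval_C, Multiset.sum_zero, mul_zero]
    refine ⟨locallyIntegrable_const _, fun φ hφ => ?_⟩
    rw [integral_const_mul, (hLP φ hφ).2.2, mul_zero]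
  | cons r m ih =>
    set P : Polynomial ℂ := C a * (m.map fun r => X - C r).prod with hP
    have hP0 : P ≠ 0 := by
      rw [hP]
      refine mul_ne_zero (C_ne_zero.2 ha) ?_
      refine Multiset.prod_ne_zero ?_
      intro h
      obtain ⟨s, _, hs⟩ := Multiset.mem_map.1 h
      exact X_sub_C_ne_zero s hs
    have hPe : C a * ((r ::ₘ m).map fun r => X - C r).prod = (X - C r) * P := by
      rw [hP, Multiset.map_cons, Multiset.prod_cons]
      ring
    have hae : (fun z : ℂ => Real.log ‖z - r‖ + Real.log ‖P.eval z‖) =ᵐ[volume]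
        (fun z : ℂ => Real.log ‖(C a * ((r ::ₘ m).map fun r => X - C r).prod).eval z‖) := by
      have h0 : volume ({z : ℂ | z = r ∨ P.eval z = 0}) = 0 := by
        have hfin : ({z : ℂ | z = r ∨ P.eval z = 0}).Finite := by
          refine ((finite_singleton r).union P.roots.toFinset.finite_toSet).subset ?_
          intro z hz
          rcases hz with hz | hz
          · exact Or.inl hz
          · right
            have : z ∈ P.roots := (mem_roots hP0).2 hz
            simpa using this
        exact hfin.measure_zero _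
      have h1 : ∀ᵐ z : ℂ, ¬ (z = r ∨ P.eval z = 0) := by
        rw [ae_iff]
        simpa only [not_not] using h0
      filter_upwards [h1] with z hz
      have hz1 : ‖z - r‖ ≠ 0 := norm_ne_zero_iff.2 (sub_ne_zero.2 fun h => hz (Or.inl h))
      have hz2 : ‖P.eval z‖ ≠ 0 := norm_ne_zero_iff.2 fun h => hz (Or.inr h)
      have e2 : (C a * ((r ::ₘ m).map fun r => X - C r).prod).eval z = (z - r) * P.eval z := by
        rw [hPe, eval_mul, eval_sub, eval_X, eval_C]
      show Real.log ‖z - r‖ + Real.log ‖P.eval z‖ =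
        Real.log ‖(C a * ((r ::ₘ m).map fun r => X - C r).prod).eval z‖
      rw [e2, norm_mul, Real.log_mul hz1 hz2]
    refine ⟨((locInt_log r).add ih.1).congr hae, fun φ hφ => ?_⟩
    have hL := hLP φ hφ
    have i1 : Integrable (fun z : ℂ => Real.log ‖z - r‖ * Lap φ z) :=
      (locInt_log r).integrable_smul_right_of_hasCompactSupport hL.1 hL.2.1
    have i2 : Integrable (fun z : ℂ => Real.log ‖P.eval z‖ * Lap φ z) :=
      ih.1.integrable_smul_right_of_hasCompactSupport hL.1 hL.2.1
    have e1 : ∫ z, Real.log ‖(C a * ((r ::ₘ m).map fun r => X - C r).prod).eval z‖ * Lap φ z =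
        ∫ z, (Real.log ‖z - r‖ * Lap φ z + Real.log ‖P.eval z‖ * Lap φ z) := by
      refine integral_congr_ae ?_
      filter_upwards [hae] with z hz
      rw [← hz, add_mul]
    rw [e1, integral_add i1 i2, ih.2 φ hφ, Multiset.map_cons, Multiset.sum_cons,
      log_translate r (by exact_mod_cast contDiff_infty.1 hφ.smooth 2) hφ.comp]
    ring

end Pool.Agent.Q90.BM.RO

namespace Pool.Agent.Q90.BM

open Pool.Agent.Q75.BM MeasureTheory

theorem t_RO (hLP : Pool.Agent.Q75.BM.S_LP) : Pool.Agent.Q75.BM.S_RO := by
  intro P hP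
  have h := RO.key hLP P.leadingCoeff P.roots
  have hs : Polynomial.Splits P := IsAlgClosed.splits P
  rw [← hs.eq_prod_roots] at h
  refine ⟨h.1, fun φ hφ => ?_⟩
  rw [h.2 φ hφ, if_neg (Polynomial.leadingCoeff_ne_zero.2 hP)]

end Pool.Agent.Q90.BM
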